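import Pool.Agent.NH19.BLA.NCount
import Pool.Agent.NH19.BLA.Weights

/-!
Every family of planar halves contains many pairs whose union satisfies the Birkhoff-Lewis
inequality, with an explicit lower bound.
-/

set_option autoImplicit false

namespace Pool.Agent.Results.MP_0d034c_co.CorrelatedHalves

open Polynomial Pool.Agent.H207R2.BL

/-- The noncrossing partitions of the boundary vertices `0, …, n-1` such that no block contains two
adjacent vertices of `H`. -/
def BoundaryPartition {n : ℕ} (H : SimpleGraph (Fin n)) : Type :=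
  {σ : Setoid (Fin n) //
    (∀ a b c d : Fin n, a < b → b < c → c < d → σ a c → σ b d → σ a b) ∧
    ∀ i j, H.Adj i j → ¬ σ i j}

/-- `H` contains the cycle `0, 1, …, n-1, 0`. -/
def ContainsCycle {n : ℕ} (H : SimpleGraph (Fin n)) : Prop :=
  ∀ i j : Fin n, i < j → ((i : ℕ) + 1 = j ∨ ((i : ℕ) = 0 ∧ (j : ℕ) + 1 = n)) → H.Adj i j

/-- `P(H, q) P(N_i ∪ N_j, q) ≥ P(N_i, q) P(N_j, q)` -/
def Correlated {J : Type} (h : ℝ[X]) (r : J → ℝ[X]) (p : J → J → ℝ[X]) (q : ℝ) (i j : J) : Prop :=
  (r i).eval q * (r j).eval q ≤ h.eval q * (p i j).eval q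

open Classical in
/-- Let `N i`, `i ∈ J`, be graphs drawn in a closed half plane with the same `n ≥ 2` boundary vertices
on its boundary line, each of which contains the graph `H` on the boundary vertices. Let `p i j`,
`r i`, `h` be the chromatic polynomials of `N i ∪ N j` (the second one reflected in the boundary
line), of `N i` and of `H`, and `D` the number of boundary partitions. -/
theorem result (n : ℕ) (hn : 2 ≤ n) (H : SimpleGraph (Fin n)) (J : Type) (V : J → Type)
    [∀ i, Finite (V i)] (N : ∀ i, SimpleGraph (V i ⊕ Fin n)) (hN : ∀ i, DrawnInHalfPlane (N i))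
    (hH : ∀ i a b, H.Adj a b → (N i).Adj (Sum.inr a) (Sum.inr b))
    (p : J → J → ℝ[X]) (hp : ∀ i j, IsChrom (glue (N i) (N j)) (p i j))
    (r : J → ℝ[X]) (hr : ∀ i, IsChrom (N i) (r i)) (h : ℝ[X]) (hh : IsChrom H h)
    (D : ℕ) (hD : D = Nat.card (BoundaryPartition H)) :
    -- among `D + 1` halves two different ones are positively correlated
    (∀ q : ℝ, 4 ≤ q → ∀ S : Finset J, D < S.card →
      ∃ i ∈ S, ∃ j ∈ S, i ≠ j ∧ Correlated h r p q i j) ∧
    -- two independent random halves are positively correlated with probability at least `1 / D`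
    (∀ q : ℝ, 4 ≤ q → ∀ (S : Finset J) (w : J → ℝ), (∀ i, 0 ≤ w i) →
      (∑ i ∈ S, w i) ^ 2 ≤
        D * ∑ i ∈ S, ∑ j ∈ S, if Correlated h r p q i j then w i * w j else 0) ∧
    -- every infinite family contains an infinite family of pairwise positively correlated halves
    (∀ Q : Finset ℝ, (∀ q ∈ Q, 4 ≤ q) → ∀ S : Set J, S.Infinite → ∃ S' ⊆ S, S'.Infinite ∧
      ∀ q ∈ Q, ∀ i ∈ S', ∀ j ∈ S', Correlated h r p q i j) ∧
    -- positively correlated halves with positive values glue to a graph with a positive value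
    (∀ q : ℝ, 4 ≤ q → ∀ i j : J, Correlated h r p q i j → 0 < (r i).eval q * (r j).eval q →
      0 < h.eval q ∧ 0 < (p i j).eval q) ∧
    -- the same without a condition on the signs of the halves
    (∀ q : ℝ, 4 ≤ q → ∀ (S : Finset J) (w : J → ℝ), (∀ i, 0 ≤ w i) →
      (∀ i ∈ S, (r i).eval q ≠ 0) →
      (∑ i ∈ S, w i) ^ 2 ≤
        2 * D * ∑ i ∈ S, ∑ j ∈ S, if 0 < (p i j).eval q then w i * w j else 0) ∧
    -- the number `D`
    (0 < D ∧ D ≤ 4 ^ n ∧ (ContainsCycle H → (n = 4 → D ≤ 3) ∧ (n = 5 → D ≤ 6))) := by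
  have hcr : ∀ i, Crossless (N i) := fun i => by
    obtain ⟨f, γ, h1, h2, h3, h4, h5⟩ := hN i
    exact crossless_of_drawing (N i) f γ h1 h2 h3 h4 h5
  have hD' : D = Nat.card (Pool.Agent.NH19.BLA.Parts H) := hD
  have hcorr : ∀ q i j, Correlated h r p q i j ↔ Pool.Agent.NH19.BLA.Corr h r p q i j :=
    fun q i j => Iff.rfl
  have two : ∀ q : ℝ, 4 ≤ q → ∀ S : Finset J, D < S.card →
      ∃ i ∈ S, ∃ j ∈ S, i ≠ j ∧ Correlated h r p q i j := fun q hq S hS =>
    Pool.Agent.NH19.BLA.two_corr hn N hcr hH hh hr hp hq S (by rw [← hD']; exact hS)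
  have diag : ∀ q : ℝ, 4 ≤ q → ∀ i, Correlated h r p q i i := fun q hq i =>
    Pool.Agent.NH19.BLA.corr_diag hn N hcr hH hh hr hp hq i
  have symm : ∀ (q : ℝ) (i j : J), Correlated h r p q i j → Correlated h r p q j i :=
    fun q i j => Pool.Agent.NH19.BLA.corr_symm N hp q i j
  have Dpos : 0 < D := by
    rw [hD']
    exact Pool.Agent.NH19.BLA.card_parts_pos
  have hpos : ∀ q : ℝ, 4 ≤ q → ∀ i : J, 0 < h.eval q := fun q hq i =>
    Pool.Agent.NH19.BLA.pos_nc hn (Pool.Agent.NH19.BLA.nonCross_of (hcr i) (hH i)) hh hq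
  have weights : ∀ q : ℝ, 4 ≤ q → ∀ (S : Finset J) (w : J → ℝ), (∀ i, 0 ≤ w i) →
      (∑ i ∈ S, w i) ^ 2 ≤
        D * ∑ i ∈ S, ∑ j ∈ S, if Correlated h r p q i j then w i * w j else 0 :=
    fun q hq S w hw => Pool.Agent.NH19.BLA.many_pairs_real _ (symm q) D Dpos
      (fun S hS => two q hq S (by omega)) (diag q hq) S w hw
  have posit : ∀ q : ℝ, 4 ≤ q → ∀ i j : J, Correlated h r p q i j →
      0 < (r i).eval q * (r j).eval q → 0 < h.eval q ∧ 0 < (p i j).eval q := by
    intro q hq i j hc h1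
    have h2 := hpos q hq i
    refine ⟨h2, ?_⟩
    have h3 : 0 < h.eval q * (p i j).eval q := lt_of_lt_of_le h1 hc
    exact (mul_pos_iff_of_pos_left h2).1 h3
  refine ⟨two, weights, ?_, posit, ?_, Dpos, ?_, ?_⟩
  · intro Q hQ S hS
    have : Infinite S := hS.to_subtype
    obtain ⟨S', h1, h2⟩ := Pool.Agent.NH19.BLA.corr_infinite hn (J := S) (fun i => N i.1)
      (fun i => hcr i.1) (fun i => hH i.1) hh (fun i => hr i.1) (fun i j => hp i.1 j.1) Q hQ
    refine ⟨Subtype.val '' S', ?_, h1.image Subtype.val_injective.injOn, ?_⟩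
    · rintro _ ⟨x, _, rfl⟩
      exact x.2
    · rintro q hq _ ⟨x, hx, rfl⟩ _ ⟨y, hy, rfl⟩
      exact h2 q hq x hx y hy
  · intro q hq S w hw hne
    obtain ⟨w1, hw1⟩ : ∃ w1 : J → ℝ, ∀ i, w1 i = if 0 < (r i).eval q then w i else 0 :=
      ⟨_, fun _ => rfl⟩
    obtain ⟨w2, hw2⟩ : ∃ w2 : J → ℝ, ∀ i, w2 i = if (r i).eval q < 0 then w i else 0 :=
      ⟨_, fun _ => rfl⟩
    have hw1' : ∀ i, 0 ≤ w1 i := fun i => by
      rw [hw1]; split_ifs; exacts [hw i, le_rfl]
    have hw2' : ∀ i, 0 ≤ w2 i := fun i => by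
      rw [hw2]; split_ifs; exacts [hw i, le_rfl]
    have h1 := weights q hq S w1 hw1'
    have h2 := weights q hq S w2 hw2'
    have hsum : ∑ i ∈ S, w i = ∑ i ∈ S, w1 i + ∑ i ∈ S, w2 i := by
      rw [← Finset.sum_add_distrib]
      refine Finset.sum_congr rfl fun i hi => ?_
      rw [hw1, hw2]
      rcases lt_or_gt_of_ne (hne i hi) with h3 | h3
      · rw [if_neg (not_lt.2 h3.le), if_pos h3, zero_add]
      · rw [if_pos h3, if_neg (not_lt.2 h3.le), add_zero]
    have hterm : (∑ i ∈ S, ∑ j ∈ S, if Correlated h r p q i j then w1 i * w1 j else 0) +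
        (∑ i ∈ S, ∑ j ∈ S, if Correlated h r p q i j then w2 i * w2 j else 0) ≤
        ∑ i ∈ S, ∑ j ∈ S, if 0 < (p i j).eval q then w i * w j else 0 := by
      rw [← Finset.sum_add_distrib]
      refine Finset.sum_le_sum fun i hi => ?_
      rw [← Finset.sum_add_distrib]
      refine Finset.sum_le_sum fun j hj => ?_
      have hww : 0 ≤ w i * w j := mul_nonneg (hw i) (hw j)
      by_cases hc : Correlated h r p q i j
      · rw [if_pos hc, if_pos hc, hw1, hw1, hw2, hw2]
        rcases lt_or_gt_of_ne (hne i hi) with h3 | h3 <;>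
          rcases lt_or_gt_of_ne (hne j hj) with h4 | h4
        · rw [if_neg (not_lt.2 h3.le), if_pos h3, if_pos h4, zero_mul, zero_add,
            if_pos (posit q hq i j hc (mul_pos_of_neg_of_neg h3 h4)).2]
        · rw [if_neg (not_lt.2 h3.le), if_neg (not_lt.2 h4.le), zero_mul, mul_zero, add_zero]
          split_ifs <;> first | exact hww | exact le_rfl
        · rw [if_neg (not_lt.2 h4.le), if_neg (not_lt.2 h3.le), zero_mul, mul_zero, add_zero]
          split_ifs <;> first | exact hww | exact le_rfl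
        · rw [if_pos h3, if_pos h4, if_neg (not_lt.2 h3.le), zero_mul, add_zero,
            if_pos (posit q hq i j hc (mul_pos h3 h4)).2]
      · rw [if_neg hc, if_neg hc, add_zero]
        split_ifs <;> first | exact hww | exact le_rfl
    rw [hsum]
    have hDr : (0 : ℝ) ≤ D := Nat.cast_nonneg D
    have h5 := mul_le_mul_of_nonneg_left hterm hDr
    nlinarith [sq_nonneg (∑ i ∈ S, w1 i - ∑ i ∈ S, w2 i)]
  · rw [hD']
    exact Pool.Agent.NH19.BLA.card_parts_le H
  · intro hC
    refine ⟨fun h4 => ?_, fun h5 => ?_⟩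
    · subst h4
      rw [hD']
      exact Pool.Agent.NH19.BLA.card_parts_four (hC 0 1 (by decide) (by decide))
        (hC 1 2 (by decide) (by decide)) (hC 2 3 (by decide) (by decide))
        (hC 0 3 (by decide) (by decide))
    · subst h5
      rw [hD']
      exact Pool.Agent.NH19.BLA.card_parts_five (hC 0 1 (by decide) (by decide))
        (hC 1 2 (by decide) (by decide)) (hC 2 3 (by decide) (by decide))
        (hC 3 4 (by decide) (by decide)) (hC 0 4 (by decide) (by decide))

end Pool.Agent.Results.MP_0d034c_co.CorrelatedHalves
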