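import Pool.Agent.NH46.BT.Tower
import Pool.Agent.NH46.BT.Stack

/-!
# The Birkhoff-Lewis inequality for towers of equal layers

`N` is a planar graph (a cap) with boundary vertices `0, …, n-1`, `A` a planar layer between two
boundaries with `n` vertices each, and `G k` the planar graph which consists of `k` layers `A`
between two caps `N`. The layer is reversible, up to a rotation `ρ` of the boundary under which the
cap is symmetric. For example `N` may be a wheel with five spokes and `A` the pentagonal antiprism;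
then `G 1` is the icosahedron, and `G k` has minimum degree five.

For real `q ≥ 4` the sequence of the values of the chromatic polynomials of `G 0, G 2, G 4, …` is
logarithmically convex, and `G 1` decides on the positivity for all of them.
-/

set_option autoImplicit false

namespace Pool.Agent.Results.MP_0d034c_co.EvenTowers

open Polynomial Pool.Agent.H207R2.BL Pool.Agent.NH46.BT

/-- Let `G k = glue (tower N A k) N` be the tower with `k` layers `A` between two caps `N`, and `p k`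
its chromatic polynomial. -/
theorem result (V U : Type) [Finite V] [Finite U] (n : ℕ) (N : SimpleGraph (V ⊕ Fin n))
    (A : SimpleGraph (U ⊕ (Fin n ⊕ Fin n))) (ρ : Fin n ≃ Fin n) (hN : Rotatable ρ N)
    (hA : Reversible ρ A) (hd : ∀ k, DrawnInHalfPlane (tower N A k))
    (p : ℕ → ℝ[X]) (hp : ∀ k, IsChrom (glue (tower N A k) N) (p k)) :
    -- for every real `q ≥ 4` the values are a moment sequence, in particular `p (2 k)` is
    -- logarithmically convex
    (∀ q : ℝ, 4 ≤ q → ∀ (m : ℕ) (a : Fin m → ℝ),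
      0 ≤ ∑ i : Fin m, ∑ j : Fin m, a i * a j * (p (i + j)).eval q) ∧
    (∀ q : ℝ, 4 ≤ q → ∀ i j : ℕ, 0 ≤ (p (2 * i)).eval q ∧
      (p (i + j)).eval q ^ 2 ≤ (p (2 * i)).eval q * (p (2 * j)).eval q) ∧
    -- if `q` is not a root for one of the `G m`, `m ≥ 1`, then all values for the `G (2 k)` are
    -- positive, and they grow at least exponentially
    (∀ q : ℝ, 4 ≤ q → ∀ m : ℕ, 1 ≤ m → (p m).eval q ≠ 0 → ∀ k : ℕ, 0 < (p (2 * k)).eval q ∧
      (p 0).eval q * ((p 2).eval q / (p 0).eval q) ^ k ≤ (p (2 * k)).eval q) ∧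
    -- the same if `q` is not a root for one union of a cap with at least one layer and an
    -- arbitrary half `M`
    (∀ (W : Type) (_ : Finite W) (M : SimpleGraph (W ⊕ Fin n)), DrawnInHalfPlane M →
      ∀ (m : ℕ) (r : ℝ[X]), 1 ≤ m → IsChrom (glue (tower N A m) M) r →
      ∀ q : ℝ, 4 ≤ q → r.eval q ≠ 0 → ∀ k : ℕ, 0 < (p (2 * k)).eval q) ∧
    -- or for a cap with at least one layer
    (∀ (m : ℕ) (r : ℝ[X]), 1 ≤ m → IsChrom (tower N A m) r → ∀ q : ℝ, 4 ≤ q → r.eval q ≠ 0 →
      ∀ k : ℕ, 0 < (p (2 * k)).eval q) ∧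
    -- the cap with one layer decides
    (∀ q : ℝ, 4 < q → (Nat.card (TowerVertex V U n 1 ⊕ Fin n) ≤ 11 ∨ MinorDegLe 4 (tower N A 1)) →
      ∀ k : ℕ, 0 < (p (2 * k)).eval q) ∧
    (∀ q : ℝ, 4 ≤ q → 5 - 1 / (Nat.card (TowerVertex V U n 1 ⊕ Fin n) : ℝ) < q →
      ∀ k : ℕ, 0 < (p (2 * k)).eval q) := by
  have hcr : ∀ k, Crossless (tower N A k) := fun k => by
    obtain ⟨f, γ, h1, h2, h3, h4, h5⟩ := hd k
    exact crossless_of_drawing (tower N A k) f γ h1 h2 h3 h4 h5
  have hp' : ∀ i j, IsChrom (glue (tower N A i) (tower N A j)) (p (i + j)) := fun i j => by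
    obtain ⟨e⟩ := tower_move hN hA i j
    exact (hp (i + j)).of_iso e
  have h0 : ∀ q : ℝ, 4 ≤ q → ∀ k, 0 ≤ (p (2 * k)).eval q := fun q hq k =>
    even_nonneg hcr hp' hq k
  have hcs : ∀ q : ℝ, 4 ≤ q → ∀ i j, (p (i + j)).eval q ^ 2 ≤
      (p (2 * i)).eval q * (p (2 * j)).eval q := fun q hq i j => cs hcr hp' hq i j
  have hlc : ∀ q : ℝ, 4 ≤ q → ∀ k, (p (2 * (k + 1))).eval q ^ 2 ≤
      (p (2 * k)).eval q * (p (2 * (k + 2))).eval q := fun q hq k => by
    have := hcs q hq k (k + 2)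
    rwa [show k + (k + 2) = 2 * (k + 1) by ring] at this
  have pos : ∀ q : ℝ, 4 ≤ q → ∀ m : ℕ, 1 ≤ m → (p m).eval q ≠ 0 → ∀ k : ℕ,
      0 < (p (2 * k)).eval q := by
    intro q hq m hm hne
    have h1 := hcs q hq 0 m
    rw [zero_add] at h1
    have h2 : (p (2 * m)).eval q ≠ 0 := by
      intro h3
      rw [h3, mul_zero] at h1
      exact hne (pow_eq_zero_iff (two_ne_zero)|>.1 (le_antisymm h1 (sq_nonneg _)))
    exact logconvex_pos (a := fun k => (p (2 * k)).eval q) (h0 q hq) (hlc q hq) hm h2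
  have half' : ∀ (m : ℕ) (r : ℝ[X]), 1 ≤ m → IsChrom (tower N A m) r → ∀ q : ℝ, 4 ≤ q →
      r.eval q ≠ 0 → ∀ k : ℕ, 0 < (p (2 * k)).eval q := by
    intro m r hm hr q hq hne
    have h1 := double_ineq (tower N A m) (hcr m) (p (m + m)) r (hp' m m) hr q hq
    refine pos q hq (m + m) (by omega) ?_
    intro h2
    rw [h2, mul_zero] at h1
    exact hne (pow_eq_zero_iff (two_ne_zero)|>.1 (le_antisymm h1 (sq_nonneg _)))
  have half := fun (r : ℝ[X]) (hr : IsChrom (tower N A 1) r) => half' 1 r le_rfl hr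
  have arb : ∀ (W : Type) (_ : Finite W) (M : SimpleGraph (W ⊕ Fin n)), DrawnInHalfPlane M →
      ∀ (m : ℕ) (r : ℝ[X]), 1 ≤ m → IsChrom (glue (tower N A m) M) r →
      ∀ q : ℝ, 4 ≤ q → r.eval q ≠ 0 → ∀ k : ℕ, 0 < (p (2 * k)).eval q := by
    intro W _ M hM m r hm hr q hq hne
    have hMc : Crossless M := by
      obtain ⟨f, γ, h1, h2, h3, h4, h5⟩ := hM
      exact crossless_of_drawing M f γ h1 h2 h3 h4 h5
    have h1 := cs_two (tower N A m) M (hcr m) hMc (hp' m m) hr (chr_spec (glue M M)) hq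
    refine pos q hq (m + m) (by omega) ?_
    intro h2
    rw [h2, zero_mul] at h1
    exact hne (pow_eq_zero_iff (two_ne_zero)|>.1 (le_antisymm h1 (sq_nonneg _)))
  have hW : ¬ Pool.Agent.Y865.RF.WK _ (tower N A 1) := by
    obtain ⟨f, γ, h1, -⟩ := hd 1
    exact Pool.Agent.Y865.RF.pl _ _ f γ h1
  have hchr : ∃ r, IsChrom (tower N A 1) r := ⟨_, chr_spec _⟩
  refine ⟨fun q hq m a => hankel hcr hp' hq m a, fun q hq i j => ⟨h0 q hq i, hcs q hq i j⟩, ?_,
    arb, half', ?_, ?_⟩
  · intro q hq m hm hne k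
    have h1 := pos q hq m hm hne
    refine ⟨h1 k, ?_⟩
    have h2 : 0 < (p 0).eval q := h1 0
    rcases k with _ | k
    · simp
    · have h3 := logconvex_pow (a := fun k => (p (2 * k)).eval q) (h0 q hq) (hlc q hq) k
      simp only [mul_zero, mul_one] at h3
      rw [div_pow, mul_div_assoc', div_le_iff₀ (pow_pos h2 _)]
      calc (p 0).eval q * (p 2).eval q ^ (k + 1) ≤
          (p 0).eval q * ((p (2 * (k + 1))).eval q * (p 0).eval q ^ k) :=
            mul_le_mul_of_nonneg_left h3 h2.le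
        _ = (p (2 * (k + 1))).eval q * (p 0).eval q ^ (k + 1) := by ring
  · rintro q hq (hc | hm)
    · refine half _ (chr_spec _) q hq.le (ne_of_gt ?_)
      exact Pool.Agent.Y406.SP.small_pos _ _ hW hc q hq
    · refine half _ (chr_spec _) q hq.le (ne_of_gt ?_)
      exact minorDeg_pos 4 q (by exact_mod_cast hq) _ hm
  · intro q hq hq5
    obtain ⟨r, hr⟩ := hchr
    exact half r hr q hq (ne_of_gt ((Pool.Agent.Y865.RF.final _ hW r hr).1 q hq5))

end Pool.Agent.Results.MP_0d034c_co.EvenTowers
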