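import Pool.Agent.NH46.BT.Crit

/-!
# A finite test for the Birkhoff-Lewis inequality for all towers of equal layers

`N` is a planar graph (a cap) with boundary vertices `0, …, n-1`, `A` a planar layer between two
boundaries with `n` vertices each, and `G k` the planar graph which consists of `k` layers `A`
between two caps `N`. The layer is reversible, up to a rotation `ρ` of the boundary under which the
cap is symmetric. Let `q ≥ 4`. If the Hankel matrix of the values of the chromatic polynomials of
`G 0, …, G (2 D)` at `q` is singular, and the Hankel matrix of those of `G 1, …, G (2 D - 1)` is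
positive semidefinite, then all graphs `G k`, for even and odd `k`, have positive values at `q`,
unless `q` is a root for all `k ≥ 1`. The first condition is always satisfied if `D` is the number
of the noncrossing partitions of the boundary without adjacent vertices in a block; it is satisfied
for a smaller number when the caps and layers are symmetric.
-/

set_option autoImplicit false

namespace Pool.Agent.Results.MP_0d034c_co.FiniteTowerTest

open Polynomial Pool.Agent.H207R2.BL Pool.Agent.NH46.BT

/-- The noncrossing partitions of the boundary vertices `0, …, n-1` such that no block contains two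
adjacent vertices of `H`. -/
def BoundaryPartition {n : ℕ} (H : SimpleGraph (Fin n)) : Type :=
  {σ : Setoid (Fin n) //
    (∀ a b c d : Fin n, a < b → b < c → c < d → σ a c → σ b d → σ a b) ∧
    ∀ i j, H.Adj i j → ¬ σ i j}

/-- The Hankel matrix of the numbers `s 0, …, s (2 D)` is singular: there is a vector `a ≠ 0` of
norm zero. (The matrices of the theorem are positive semidefinite.) -/
def Singular (D : ℕ) (s : ℕ → ℝ) : Prop :=
  ∃ a : Fin (D + 1) → ℝ, a ≠ 0 ∧
    ∑ i : Fin (D + 1), ∑ j : Fin (D + 1), a i * a j * s (i + j) = 0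

/-- The Hankel matrix of the numbers `s 1, …, s (2 D - 1)` is positive semidefinite. -/
def ShiftedPositive (D : ℕ) (s : ℕ → ℝ) : Prop :=
  ∀ a : ℕ → ℝ, 0 ≤ ∑ i ∈ Finset.range D, ∑ j ∈ Finset.range D, a i * a j * s (i + j + 1)

/-- Let `G k = glue (tower N A k) N` be the tower with `k` layers `A` between two caps `N`, and `p k`
its chromatic polynomial. -/
theorem result (V U : Type) [Finite V] [Finite U] (n : ℕ) (N : SimpleGraph (V ⊕ Fin n))
    (A : SimpleGraph (U ⊕ (Fin n ⊕ Fin n))) (ρ : Fin n ≃ Fin n) (hN : Rotatable ρ N)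
    (hA : Reversible ρ A) (hd : ∀ k, DrawnInHalfPlane (tower N A k))
    (p : ℕ → ℝ[X]) (hp : ∀ k, IsChrom (glue (tower N A k) N) (p k)) :
    -- the finite test
    (∀ q : ℝ, 4 ≤ q → ∀ D : ℕ, Singular D (fun k => (p k).eval q) →
      ShiftedPositive D (fun k => (p k).eval q) → ∀ m : ℕ, 1 ≤ m → (p m).eval q ≠ 0 →
      ∀ k : ℕ, 0 < (p k).eval q ∧
        (p (k + 1)).eval q ^ 2 ≤ (p k).eval q * (p (k + 2)).eval q) ∧
    -- the recurrence which follows from the first condition
    (∀ q : ℝ, 4 ≤ q → ∀ D : ℕ, Singular D (fun k => (p k).eval q) →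
      ∃ d : ℕ, d ≤ D ∧ ∃ b : Fin d → ℝ, ∀ j : ℕ,
        (p (d + j)).eval q = ∑ i : Fin d, b i * (p (i + j)).eval q) ∧
    -- the first condition is satisfied for the number of noncrossing partitions
    (∀ H : SimpleGraph (Fin n), (∀ a b, H.Adj a b → N.Adj (Sum.inr a) (Sum.inr b)) →
      (∀ a b, H.Adj a b → A.Adj (Sum.inr (Sum.inr a)) (Sum.inr (Sum.inr b))) →
      ∀ q : ℝ, Singular (Nat.card (BoundaryPartition H)) (fun k => (p k).eval q)) := by
  have hcr : ∀ k, Crossless (tower N A k) := fun k => by
    obtain ⟨f, γ, h1, h2, h3, h4, h5⟩ := hd k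
    exact crossless_of_drawing (tower N A k) f γ h1 h2 h3 h4 h5
  have hp' : ∀ i j, IsChrom (glue (tower N A i) (tower N A j)) (p (i + j)) := fun i j => by
    obtain ⟨e⟩ := tower_move hN hA i j
    exact (hp (i + j)).of_iso e
  have hrec : ∀ q : ℝ, 4 ≤ q → ∀ D : ℕ, Singular D (fun k => (p k).eval q) →
      ∃ d : ℕ, d ≤ D ∧ ∃ b : Fin d → ℝ, ∀ j : ℕ,
        (p (d + j)).eval q = ∑ i : Fin d, b i * (p (i + j)).eval q := by
    rintro q hq D ⟨a, ha, h0⟩
    exact exists_order (s := fun k => (p k).eval q) ha (null_rel hcr hp' hq h0)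
  refine ⟨?_, hrec, ?_⟩
  · intro q hq D hs hps m hm hne
    obtain ⟨d, hdD, b, hb⟩ := hrec q hq D hs
    have hrep := exists_rep hdD (s := fun k => (p k).eval q) hb
    have hshift := shift_cs (D := D) (s := fun k => (p k).eval q) hrep hps
    have h0 : ∀ k, 0 ≤ (p (2 * k)).eval q := fun k => even_nonneg hcr hp' hq k
    have hcs : ∀ i j, (p (i + j)).eval q ^ 2 ≤ (p (2 * i)).eval q * (p (2 * j)).eval q :=
      fun i j => cs hcr hp' hq i j
    have hne2 : (p (2 * m)).eval q ≠ 0 := by
      intro h3
      have h1 := hcs 0 m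
      rw [zero_add, h3, mul_zero] at h1
      exact hne (pow_eq_zero_iff (two_ne_zero)|>.1 (le_antisymm h1 (sq_nonneg _)))
    have hpos : ∀ k, 0 < (p (2 * k)).eval q :=
      logconvex_pos (a := fun k => (p (2 * k)).eval q) h0 (fun k => by
        have := hcs k (k + 2)
        rwa [show k + (k + 2) = 2 * (k + 1) by ring] at this) hm hne2
    have hodd : ∀ k, 0 < (p (2 * k + 1)).eval q := by
      intro k
      have h1 := hshift k (k + 1)
      have h2 := hpos (k + 1)
      have h3 : (p (k + (k + 1) + 1)).eval q = (p (2 * (k + 1))).eval q := by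
        rw [show k + (k + 1) + 1 = 2 * (k + 1) by ring]
      rcases h1.1.lt_or_eq with h4 | h4
      · exact h4
      · have h5 := h1.2
        rw [← h4, zero_mul, h3] at h5
        nlinarith
    intro k
    rcases Nat.even_or_odd' k with ⟨t, rfl | rfl⟩
    · refine ⟨hpos t, ?_⟩
      have := hcs t (t + 1)
      rw [show t + (t + 1) = 2 * t + 1 by ring, show 2 * (t + 1) = 2 * t + 2 by ring] at this
      exact this
    · refine ⟨hodd t, ?_⟩
      have := (hshift t (t + 1)).2
      rw [show t + (t + 1) + 1 = 2 * t + 1 + 1 by ring,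
        show 2 * (t + 1) + 1 = 2 * t + 1 + 2 by ring] at this
      exact this
  · intro H hHN hHA q
    exact exists_null H hcr (tower_boundary hHN hHA) hp' q

end Pool.Agent.Results.MP_0d034c_co.FiniteTowerTest
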