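import Pool.Agent.NH19.BLA.Avg

/-!
The Birkhoff-Lewis inequality on average, over all pairs of halves.
-/

set_option autoImplicit false

namespace Pool.Agent.Results.MP_0d034c_co.PositiveOnAverage

open Polynomial Pool.Agent.H207R2.BL

/-- `T` is a triangulation of the convex polygon with vertices `0, …, n-1` in this order: a maximal
graph on these vertices in which no two edges (drawn as chords) cross. -/
def PolygonTriangulation {n : ℕ} (T : SimpleGraph (Fin n)) : Prop :=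
  Maximal (fun G : SimpleGraph (Fin n) =>
    ∀ i j k l : Fin n, i < j → j < k → k < l → G.Adj i k → ¬ G.Adj j l) T

/-- The half contains the cycle `0, 1, …, n-1, 0` through its boundary vertices. -/
def HasBoundaryCycle {V : Type} {n : ℕ} (N : SimpleGraph (V ⊕ Fin n)) : Prop :=
  ∀ i j : Fin n, i < j → ((i : ℕ) + 1 = j ∨ ((i : ℕ) = 0 ∧ (j : ℕ) + 1 = n)) →
    N.Adj (Sum.inr i) (Sum.inr j)

theorem isTri {n : ℕ} {T : SimpleGraph (Fin n)} (h : PolygonTriangulation T) :
    Pool.Agent.NH19.BLA.IsTri T :=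
  ⟨h.1, fun _ h1 h2 => h.2 h1 h2⟩

/-- the ratio of the two quantities -/
theorem ratio_bound {n : ℕ} (hn : 3 ≤ n) {q : ℝ} (hq : 4 ≤ q) :
    (q - 1) ^ n + (-1) ^ n * (q - 1) ≤ q * (q - 1) * (q - 1) ^ (n - 2) := by
  obtain ⟨m, rfl⟩ : ∃ m, n = m + 3 := ⟨n - 3, by omega⟩
  have h1 : (-1 : ℝ) ^ (m + 3) * (q - 1) ≤ (q - 1) ^ (m + 2) := by
    have h2 : q - 1 ≤ (q - 1) ^ (m + 2) := by
      have : (q - 1) ^ 1 ≤ (q - 1) ^ (m + 2) := pow_le_pow_right₀ (by linarith) (by omega)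
      rwa [pow_one] at this
    rcases neg_one_pow_eq_or ℝ (m + 3) with h | h
    · rw [h]; linarith
    · rw [h]; linarith
  have e : m + 3 - 2 = m + 1 := by omega
  rw [e]
  have e2 : q * (q - 1) * (q - 1) ^ (m + 1) = (q - 1) ^ (m + 3) + (q - 1) ^ (m + 2) := by ring
  rw [e2]
  linarith

/-- **The Birkhoff-Lewis inequality holds on average.**  -/
theorem result :
    -- Part 1: unions of two triangulations of a polygon (Hamiltonian plane triangulations)
    (∀ (n : ℕ), 3 ≤ n → ∀ P : SimpleGraph (Fin n) → ℝ[X], (∀ G, IsChrom G (P G)) →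
      ∀ 𝒯 : Finset (SimpleGraph (Fin n)), (∀ T ∈ 𝒯, PolygonTriangulation T) →
      -- arbitrary weights, products of values at several points
      (∀ (m : ℕ) (q : Fin m → ℝ), (∀ s, 4 ≤ q s) → ∀ w : SimpleGraph (Fin n) → ℝ,
        (∑ T ∈ 𝒯, w T) ^ 2 * ∏ s, (q s * (q s - 1) * ((q s - 2) ^ 2 / (q s - 1)) ^ (n - 2)) ≤
          ∑ T ∈ 𝒯, ∑ T' ∈ 𝒯, w T * w T' * ∏ s, (P (T ⊔ T')).eval (q s)) ∧
      ∀ q : ℝ, 4 ≤ q →
        -- all moments, in particular the average
        (∀ m : ℕ, (𝒯.card : ℝ) ^ 2 * (12 * (4 / 3 : ℝ) ^ (n - 2)) ^ m ≤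
          ∑ T ∈ 𝒯, ∑ T' ∈ 𝒯, (P (T ⊔ T')).eval q ^ m) ∧
        -- the largest absolute value is attained at the diagonal
        (∀ T ∈ 𝒯, ∀ T' ∈ 𝒯, |(P (T ⊔ T')).eval q| ≤ q * (q - 1) * (q - 2) ^ (n - 2)) ∧
        -- the number of pairs with a positive value
        (((q - 2) / (q - 1)) ^ (n - 2) * (𝒯.card : ℝ) ^ 2 ≤
          (Nat.card {x : 𝒯 × 𝒯 // 0 < (P (x.1.1 ⊔ x.2.1)).eval q} : ℝ)) ∧
        -- families in which all pairs violate the inequality are small
        ((∀ T ∈ 𝒯, ∀ T' ∈ 𝒯, T ≠ T' → (P (T ⊔ T')).eval q ≤ 0) →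
          (𝒯.card : ℝ) ≤ ((q - 1) / (q - 2)) ^ (n - 2))) ∧
    -- Part 2: arbitrary halves
    (∀ (n : ℕ), 2 ≤ n → ∀ (J : Type) [Fintype J] (V : J → Type) [∀ i, Finite (V i)]
      (N : ∀ i, SimpleGraph (V i ⊕ Fin n)), (∀ i, DrawnInHalfPlane (N i)) →
      (∀ i, HasBoundaryCycle (N i)) →
      ∀ p : J → J → ℝ[X], (∀ i j, IsChrom (glue (N i) (N j)) (p i j)) →
      ∀ r : J → ℝ[X], (∀ i, IsChrom (N i) (r i)) →
      ∀ (m : ℕ) (q : Fin m → ℝ), (∀ s, 4 ≤ q s) → ∀ w : J → ℝ,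
        (∑ i, w i * ∏ s, (r i).eval (q s)) ^ 2 ≤
          (∏ s, ((q s - 1) ^ n + (-1) ^ n * (q s - 1))) *
            ∑ i, ∑ j, w i * w j * ∏ s, (p i j).eval (q s)) := by
  classical
  refine ⟨?_, ?_⟩
  · intro n hn P hP 𝒯 h𝒯
    -- the basic inequality
    have base : ∀ (m : ℕ) (q : Fin m → ℝ), (∀ s, 4 ≤ q s) → ∀ w : SimpleGraph (Fin n) → ℝ,
        (∑ T ∈ 𝒯, w T) ^ 2 * ∏ s, (q s * (q s - 1) * ((q s - 2) ^ 2 / (q s - 1)) ^ (n - 2)) ≤
          ∑ T ∈ 𝒯, ∑ T' ∈ 𝒯, w T * w T' * ∏ s, (P (T ⊔ T')).eval (q s) := by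
      intro m q hq w
      have h1 := Pool.Agent.NH19.BLA.avg_halves (n := n) (by omega) (J := 𝒯) (fun _ => Empty)
        (fun T => Pool.Agent.NH19.BLA.half T.1)
        (fun T => Pool.Agent.NH19.BLA.crossless_half (isTri (h𝒯 T.1 T.2)).1)
        (fun T a b hab => (Pool.Agent.NH19.BLA.half_adj T.1 a b).2
          ((isTri (h𝒯 T.1 T.2)).cyc_le hab))
        (fun T T' => P (T.1 ⊔ T'.1))
        (fun T T' => (hP _).of_iso (Pool.Agent.NH19.BLA.glueHalf T.1 T'.1))
        (fun _ => X * (X - 1) * (X - 2) ^ (n - 2))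
        (fun T => ?_) q hq (fun T => w T.1)
      · have e1 : ∀ s, ((X * (X - 1) * (X - 2) ^ (n - 2) : ℝ[X])).eval (q s) =
            q s * (q s - 1) * (q s - 2) ^ (n - 2) := by
          intro s
          simp
        simp only [e1] at h1
        rw [← Finset.sum_mul] at h1
        have e2 : ∀ f : SimpleGraph (Fin n) → ℝ, ∑ T : 𝒯, f T.1 = ∑ T ∈ 𝒯, f T := fun f =>
          Finset.sum_coe_sort 𝒯 f
        have e3 : ∑ i : 𝒯, ∑ j : 𝒯, w i.1 * w j.1 * ∏ s, (P (i.1 ⊔ j.1)).eval (q s) =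
            ∑ T ∈ 𝒯, ∑ T' ∈ 𝒯, w T * w T' * ∏ s, (P (T ⊔ T')).eval (q s) := by
          rw [← e2 (fun T => ∑ T' ∈ 𝒯, w T * w T' * ∏ s, (P (T ⊔ T')).eval (q s))]
          exact Finset.sum_congr rfl fun i _ =>
            e2 (fun T' => w i.1 * w T' * ∏ s, (P (i.1 ⊔ T')).eval (q s))
        rw [e3, e2 w] at h1
        refine le_trans ?_ h1
        rw [mul_pow, mul_div_assoc]
        refine mul_le_mul_of_nonneg_left ?_ (sq_nonneg _)
        rw [← Finset.prod_pow, ← Finset.prod_div_distrib]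
        refine Finset.prod_le_prod (fun s _ => ?_) (fun s _ => ?_)
        · have := hq s
          have h0 : 0 < q s := by linarith
          have h2 : 0 < q s - 1 := by linarith
          have h3 : 0 ≤ (q s - 2) ^ 2 / (q s - 1) := by positivity
          positivity
        · have hqs := hq s
          have h2 : 0 < q s - 1 := by linarith
          have h3 := Pool.Agent.NH19.BLA.pos_B (n := n) (by omega) hqs
          rw [le_div_iff₀ h3]
          have h4 := ratio_bound hn hqs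
          have h5 : 0 ≤ q s * (q s - 1) * ((q s - 2) ^ 2 / (q s - 1)) ^ (n - 2) := by
            have h0 : 0 < q s := by linarith
            have h3 : 0 ≤ (q s - 2) ^ 2 / (q s - 1) := by positivity
            positivity
          refine (mul_le_mul_of_nonneg_left h4 h5).trans (le_of_eq ?_)
          rw [div_pow, pow_right_comm (q s - 2) 2 (n - 2)]
          have h6 : (q s - 1) ^ (n - 2) ≠ 0 := (pow_pos h2 _).ne'
          field_simp
      · exact (Pool.Agent.NH19.BLA.chrom_tri (by omega) (isTri (h𝒯 T.1 T.2))).of_iso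
          (Pool.Agent.NH19.BLA.halfIso T.1)
    refine ⟨base, ?_⟩
    intro q hq
    have hq1 : 0 < q - 1 := by linarith
    have hq2 : 0 < q - 2 := by linarith
    have hq0 : 0 < q := by linarith
    set A : ℝ := q * (q - 1) * (q - 2) ^ (n - 2) with hA
    have hApos : 0 < A := by positivity
    -- the moments
    have mom : ∀ m : ℕ, (𝒯.card : ℝ) ^ 2 * (q * (q - 1) * ((q - 2) ^ 2 / (q - 1)) ^ (n - 2)) ^ m ≤
        ∑ T ∈ 𝒯, ∑ T' ∈ 𝒯, (P (T ⊔ T')).eval q ^ m := by
      intro m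
      have := base m (fun _ => q) (fun _ => hq) (fun _ => 1)
      simpa using this
    -- the diagonal
    have hdiag : ∀ T ∈ 𝒯, (P (T ⊔ T)).eval q = A := by
      intro T hT
      rw [sup_idem, Pool.Agent.NH19.BLA.chrom_unique (hP T)
        (Pool.Agent.NH19.BLA.chrom_tri (by omega) (isTri (h𝒯 T hT)))]
      simp [hA]
    have habs : ∀ T ∈ 𝒯, ∀ T' ∈ 𝒯, |(P (T ⊔ T')).eval q| ≤ A := by
      intro T hT T' hT'
      let N : Bool → SimpleGraph (Fin n) := fun b => cond b T T'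
      have hN : ∀ b, Pool.Agent.NH19.BLA.NonCross (N b) := by
        rintro (_ | _)
        · exact (isTri (h𝒯 T' hT')).1
        · exact (isTri (h𝒯 T hT)).1
      have h1 := fun y : ℝ => Pool.Agent.NH19.BLA.psd_nc N hN (fun a b => P (N a ⊔ N b))
        (fun a b => hP _) q hq (fun b => cond b 1 y)
      simp only [Fintype.sum_bool, N, cond_true, cond_false, hdiag T hT, hdiag T' hT'] at h1
      have h2 : P (T' ⊔ T) = P (T ⊔ T') := by rw [sup_comm]
      rw [h2] at h1
      have h3 := h1 1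
      have h4 := h1 (-1)
      rw [abs_le]
      constructor <;> linarith
    have hratio : (q * (q - 1) * ((q - 2) ^ 2 / (q - 1)) ^ (n - 2)) =
        ((q - 2) / (q - 1)) ^ (n - 2) * A := by
      rw [hA, div_pow, div_pow, pow_right_comm (q - 2) 2 (n - 2)]
      ring
    have h1m := mom 1
    simp only [pow_one] at h1m
    rw [hratio] at h1m
    refine ⟨?_, habs, ?_, ?_⟩
    · intro m
      refine le_trans ?_ (mom m)
      refine mul_le_mul_of_nonneg_left ?_ (sq_nonneg _)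
      refine pow_le_pow_left₀ (by positivity) ?_ m
      have h3 : (4 / 3 : ℝ) ≤ (q - 2) ^ 2 / (q - 1) := by
        rw [div_le_div_iff₀ (by norm_num) hq1]
        nlinarith
      have h4 : (12 : ℝ) ≤ q * (q - 1) := by nlinarith
      exact mul_le_mul h4 (pow_le_pow_left₀ (by norm_num) h3 _) (by positivity) (by positivity)
    · -- counting positive pairs
      have e2 : ∑ T ∈ 𝒯, ∑ T' ∈ 𝒯, (P (T ⊔ T')).eval q =
          ∑ x : 𝒯 × 𝒯, (P (x.1.1 ⊔ x.2.1)).eval q := by
        rw [Fintype.sum_prod_type]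
        rw [← Finset.sum_coe_sort 𝒯 (fun T => ∑ T' ∈ 𝒯, (P (T ⊔ T')).eval q)]
        exact Finset.sum_congr rfl fun i _ =>
          (Finset.sum_coe_sort 𝒯 (fun T' => (P (i.1 ⊔ T')).eval q)).symm
      rw [e2] at h1m
      have h5 : ∑ x : 𝒯 × 𝒯, (P (x.1.1 ⊔ x.2.1)).eval q ≤
          ∑ x : 𝒯 × 𝒯, if 0 < (P (x.1.1 ⊔ x.2.1)).eval q then A else 0 := by
        refine Finset.sum_le_sum fun x _ => ?_
        split_ifs with h
        · exact (le_abs_self _).trans (habs _ x.1.2 _ x.2.2)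
        · exact not_lt.1 h
      have h6 : (∑ x : 𝒯 × 𝒯, if 0 < (P (x.1.1 ⊔ x.2.1)).eval q then A else 0) =
          (Nat.card {x : 𝒯 × 𝒯 // 0 < (P (x.1.1 ⊔ x.2.1)).eval q} : ℝ) * A := by
        rw [← Finset.sum_filter, Finset.sum_const, nsmul_eq_mul, Nat.card_eq_fintype_card,
          Fintype.card_subtype]
      rw [h6] at h5
      have h7 := h1m.trans h5
      have h8 : ((q - 2) / (q - 1)) ^ (n - 2) * (𝒯.card : ℝ) ^ 2 * A ≤
          (Nat.card {x : 𝒯 × 𝒯 // 0 < (P (x.1.1 ⊔ x.2.1)).eval q} : ℝ) * A := by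
        refine le_trans (le_of_eq ?_) h7
        ring
      exact le_of_mul_le_mul_right h8 hApos
    · intro hneg
      have h5 : ∑ T ∈ 𝒯, ∑ T' ∈ 𝒯, (P (T ⊔ T')).eval q ≤ (𝒯.card : ℝ) * A := by
        rw [← nsmul_eq_mul, ← Finset.sum_const]
        refine Finset.sum_le_sum fun T hT => ?_
        rw [← Finset.add_sum_erase 𝒯 _ hT, hdiag T hT]
        have : ∑ T' ∈ 𝒯.erase T, (P (T ⊔ T')).eval q ≤ 0 :=
          Finset.sum_nonpos fun T' hT' =>
            hneg T hT T' (Finset.mem_of_mem_erase hT') (Finset.ne_of_mem_erase hT').symm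
        linarith
      have h6 := h1m.trans h5
      rcases Nat.eq_zero_or_pos 𝒯.card with h0 | h0
      · rw [h0]
        have : 0 ≤ ((q - 1) / (q - 2)) ^ (n - 2) := by positivity
        simpa using this
      · have h0' : (0 : ℝ) < 𝒯.card := by exact_mod_cast h0
        have h7 : (𝒯.card : ℝ) * ((q - 2) / (q - 1)) ^ (n - 2) ≤ 1 := by
          have h8 : (𝒯.card : ℝ) * A * ((𝒯.card : ℝ) * ((q - 2) / (q - 1)) ^ (n - 2)) ≤
              (𝒯.card : ℝ) * A * 1 := by
            refine le_trans (le_of_eq ?_) (h6.trans (le_of_eq (mul_one _).symm))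
            ring
          exact le_of_mul_le_mul_left h8 (by positivity)
        have h9 : ((q - 1) / (q - 2)) ^ (n - 2) * ((q - 2) / (q - 1)) ^ (n - 2) = 1 := by
          rw [← mul_pow, div_mul_div_comm, mul_comm (q - 1), div_self (by positivity), one_pow]
        have h10 : 0 < ((q - 2) / (q - 1)) ^ (n - 2) := by positivity
        exact le_of_mul_le_mul_right (h7.trans h9.ge) h10
  · intro n hn J _ V _ N hN hC p hp r hr m q hq w
    have h1 := Pool.Agent.NH19.BLA.avg_halves hn V N (fun i => by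
        obtain ⟨f, γ, h1, h2, h3, h4, h5⟩ := hN i
        exact crossless_of_drawing (N i) f γ h1 h2 h3 h4 h5)
      (fun i a b hab => by
        obtain ⟨hne, h | h | h | h⟩ := hab
        · exact hC i a b (by rw [Fin.lt_def]; omega) (Or.inl h)
        · exact (hC i b a (by rw [Fin.lt_def]; omega) (Or.inl h)).symm
        · refine hC i a b ?_ (Or.inr h)
          rw [Fin.lt_def]
          omega
        · refine (hC i b a ?_ (Or.inr h)).symm
          rw [Fin.lt_def]
          omega) p hp r hr q hq w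
    have h2 : 0 < ∏ s, ((q s - 1) ^ n + (-1) ^ n * (q s - 1)) :=
      Finset.prod_pos fun s _ => Pool.Agent.NH19.BLA.pos_B hn (hq s)
    rw [div_le_iff₀ h2] at h1
    rw [mul_comm (∏ s, ((q s - 1) ^ n + (-1) ^ n * (q s - 1)))]
    exact h1

end Pool.Agent.Results.MP_0d034c_co.PositiveOnAverage
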